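import Pool.Agent.Lib.MP_95a368_co.Proof

/-!
# Every fixed clique number `d ≥ 2` admits a polynomial separation

`nu d n` (see `Pool.Agent.Lib.MP_95a368_co.Defs`) is the Rank-Ramsey function `ν_d(n)`.
-/

set_option autoImplicit false

namespace Pool.Agent.Results.MP_95a368_co.PolynomialSeparation

open Pool.Agent.MP_95a368_co

/-- For every `d ≥ 2` there is `c ≥ 1 / 50` with `ν_d(n) = O(n ^ (1 - c))`. -/
theorem result : ∀ d : ℕ, 2 ≤ d → ∃ c : ℝ, 1 / 50 ≤ c ∧
    (fun n : ℕ => (nu d n : ℝ)) =O[Filter.atTop] (fun n : ℕ => (n : ℝ) ^ (1 - c)) :=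
  main

end Pool.Agent.Results.MP_95a368_co.PolynomialSeparation
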